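import Pool.Agent.H98.KON.Tool
import Pool.Agent.H10.LDV2.Stmts

/-!
# CON in the form of `Pool.LDV2`
-/

set_option autoImplicit false

namespace Pool.LDV2

open Finset Pool.Agent.H98.ABCR Pool.SHA Pool.BL

theorem con_of (h1 : Pool.CON.S_CON) : S_CON := by
  classical
  intro J κ ε hJ hκ hε
  obtain ⟨C, hC, hc⟩ := h1 J κ (ε / 2) hJ hκ (by linarith)
  set N : ℕ := ⌊4 * κ / ε⌋₊ with hN
  refine ⟨((N + 1 : ℕ) : ℝ) * C, one_le_mul_of_one_le_of_one_le (by push_cast; linarith [Nat.cast_nonneg (α := ℝ) N]) hC, ?_⟩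
  intro X τ h F p hX hτ hh0 hp hF
  have hX0 : (0 : ℝ) < X := by linarith
  rcases F.eq_empty_or_nonempty with h0 | ⟨v0, hv0⟩
  · rw [h0]; simp; positivity
  -- `X > 1`
  have hlog : 0 < Real.log X := by
    rcases (Real.log_nonneg hX).lt_or_eq with h2 | h2
    · exact h2
    · exfalso
      obtain ⟨T, H, -, -⟩ := hF v0 hv0
      rw [← h2, mul_zero] at H
      have h3 : (1 : ℝ) < ((v0.1 + v0.2 : ℕ) : ℝ) := by
        have := T.1; have := T.2.1
        exact_mod_cast (by omega : 1 < v0.1 + v0.2)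
      have h4 : 0 < hh v0 := Real.log_pos h3
      linarith
  set δ : ℝ := ε / 4 with hδ
  have hδ0 : 0 < δ := by rw [hδ]; linarith
  set f : ℕ × ℕ → ℕ := fun v => ⌊hh v / (δ * Real.log X)⌋₊ with hf
  have hhv : ∀ v ∈ F, 0 ≤ hh v := by
    intro v hv
    have h3 : (1 : ℝ) ≤ ((v.1 + v.2 : ℕ) : ℝ) := by
      have := (hF v hv).1.1
      exact_mod_cast (by omega : 1 ≤ v.1 + v.2)
    exact Real.log_nonneg h3
  have hmaps : Set.MapsTo f (F : Set (ℕ × ℕ)) (range (N + 1)) := by
    intro v hv
    have hv' := Finset.mem_coe.1 hv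
    refine Finset.mem_coe.2 ?_
    rw [mem_range, Nat.lt_succ_iff]
    refine Nat.floor_le_floor ?_
    rw [div_le_iff₀ (by positivity)]
    have := (hF v hv').2.1
    have e : 4 * κ / ε * (δ * Real.log X) = κ * Real.log X := by
      rw [hδ]; field_simp
    rw [e]; exact this
  set E : ℝ := ε + 4 * τ + (∑ l, (∑ e ∈ Icc 1 J, p l e - p l 2)) +
    max 0 (p 0 2 + p 1 2 + p 2 2 - h) with hE
  have hfib : ∀ k ∈ range (N + 1), (((F.filter (fun v => f v = k)).card : ℕ) : ℝ) ≤ C * X ^ E := by
    intro k _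
    rcases (F.filter (fun v => f v = k)).eq_empty_or_nonempty with h0 | ⟨w, hw⟩
    · rw [h0]; simp; positivity
    have hwin : ∀ v ∈ F.filter (fun v => f v = k), k * δ * Real.log X ≤ hh v ∧
        hh v ≤ (k * δ + δ) * Real.log X := by
      intro v hv
      rw [mem_filter] at hv
      have hk := hv.2
      have a1 : (k : ℝ) ≤ hh v / (δ * Real.log X) := by
        rw [← hk]; exact Nat.floor_le (div_nonneg (hhv v hv.1) (by positivity))
      have a2 : hh v / (δ * Real.log X) < k + 1 := by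
        rw [← hk]; exact Nat.lt_floor_add_one _
      rw [le_div_iff₀ (by positivity)] at a1
      rw [div_lt_iff₀ (by positivity)] at a2
      constructor <;> nlinarith
    have hkh : h ≤ k * δ + δ := by
      obtain ⟨T, -, -, H⟩ := hF w (mem_filter.1 hw).1
      have h5 := (hwin w hw).2
      have h6 : h * Real.log X ≤ hh w := by
        have := Real.log_le_log (by positivity) H
        rw [Real.log_rpow hX0] at this
        exact this
      have h7 : h * Real.log X ≤ (k * δ + δ) * Real.log X := h6.trans h5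
      exact le_of_mul_le_mul_right h7 hlog
    have key := hc X τ (k * δ) δ (F.filter (fun v => f v = k)) p hX hτ hδ0.le hp (by
      intro v hv
      obtain ⟨T, H, P, -⟩ := hF v (mem_filter.1 hv).1
      exact ⟨T, H, P, (hwin v hv).1, (hwin v hv).2⟩)
    refine key.trans (mul_le_mul_of_nonneg_left (Real.rpow_le_rpow_of_exponent_le hX ?_)
      (by linarith))
    have hmax : max 0 (p 0 2 + p 1 2 + p 2 2 - k * δ) ≤
        max 0 (p 0 2 + p 1 2 + p 2 2 - h) + δ := by
      refine max_le ?_ ?_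
      · have := le_max_left 0 (p 0 2 + p 1 2 + p 2 2 - h)
        linarith
      · have := le_max_right 0 (p 0 2 + p 1 2 + p 2 2 - h)
        linarith
    rw [hE, Fin.sum_univ_three]
    have : δ + δ = ε / 2 := by rw [hδ]; ring
    linarith
  rw [Finset.card_eq_sum_card_fiberwise hmaps]
  push_cast
  calc ∑ q ∈ range (N + 1), ((F.filter (fun v => f v = q)).card : ℝ)
      ≤ ∑ _q ∈ range (N + 1), C * X ^ E := Finset.sum_le_sum hfib
    _ = _ := by rw [Finset.sum_const, card_range, nsmul_eq_mul]; push_cast; ring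

theorem con_thm (hR : Pool.MED.S_RTS) (h2 : S_LAY) (h3 : Pool.RIC.S_CNT)
    (h4 : Pool.FEX.S_OMB) : S_CON := con_of (Pool.CON.con_thm hR h2 h3 h4)

end Pool.LDV2
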