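import Pool.Agent.H98.KON.Core
import Pool.Agent.H47.MED.Stmts

/-!
# CON: classes, points on a conic with fixed coefficients
-/

set_option autoImplicit false

namespace Pool.CON

open Finset

/-- number of points in one class -/
theorem oneclass (A B C : ℕ) (hA : 0 < A) (hB : 0 < B) (hC : 0 < C) (hAB : A.Coprime B)
    (hAC : A.Coprime C) (hBC : B.Coprime C) (S : Finset (ℕ × ℕ × ℕ)) (XX Z0 Z1 : ℝ)
    (hX : 0 ≤ XX) (hZ0 : 0 < Z0) (hZ1 : 0 < Z1)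
    (hS : ∀ s ∈ S, 0 < s.1 ∧ 0 < s.2.1 ∧ 0 < s.2.2 ∧ s.1.Coprime s.2.1 ∧
      A * s.1 ^ 2 + B * s.2.1 ^ 2 = C * s.2.2 ^ 2 ∧ A * s.1 ^ 2 ≤ B * s.2.1 ^ 2 ∧
      (s.1 : ℝ) ≤ XX ∧ Z0 ≤ s.2.2 ∧ (s.2.2 : ℝ) ≤ Z1)
    (hcl : ∀ s ∈ S, ∀ t ∈ S, (A : ℤ) ∣ s.2.1 * t.2.2 - t.2.1 * s.2.2 ∧
      (B : ℤ) ∣ s.1 * t.2.2 - t.1 * s.2.2 ∧ (C : ℤ) ∣ s.1 * t.2.1 - t.1 * s.2.1) :
    (S.card : ℝ) ≤ 2 * (1 + 2 * XX * Z1 / (Z0 * Real.sqrt (B * C))) := by
  have hB' : (0 : ℝ) < B := by exact_mod_cast hB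
  have hC' : (0 : ℝ) < C := by exact_mod_cast hC
  have hq : 0 < Real.sqrt (B * C : ℝ) := Real.sqrt_pos.2 (by positivity)
  set ρ : ℝ := Real.sqrt (B * C) / (2 * Z1) with hρ
  have hρ0 : 0 < ρ := by rw [hρ]; positivity
  have hρ1 : 4 * Z1 ^ 2 * ρ ^ 2 ≤ B * C := by
    rw [hρ, div_pow, Real.sq_sqrt (by positivity : (0 : ℝ) ≤ B * C)]
    have : 4 * Z1 ^ 2 * ((B * C : ℝ) / (2 * Z1) ^ 2) = B * C := by
      field_simp
      norm_num
    exact this.le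
  set N : ℕ := ⌊2 * XX * Z1 / (Z0 * Real.sqrt (B * C))⌋₊ with hN
  set f : ℕ × ℕ × ℕ → ℕ := fun s => ⌊((s.1 : ℝ) / s.2.2) / ρ⌋₊ with hf
  have hmaps : ∀ s ∈ S, f s ∈ range (N + 1) := by
    intro s hs
    obtain ⟨h1, h2, h3, h4, h5, h6, h7, h8, h9⟩ := hS s hs
    rw [mem_range, Nat.lt_succ_iff]
    refine Nat.floor_le_floor ?_
    have e : 2 * XX * Z1 / (Z0 * Real.sqrt (B * C)) = (XX / Z0) / ρ := by
      rw [hρ]
      field_simp
    rw [e]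
    refine div_le_div_of_nonneg_right ?_ hρ0.le
    exact div_le_div₀ hX h7 hZ0 h8
  have hfib : ∀ n ∈ range (N + 1), (S.filter (fun s => f s = n)).card ≤ 2 := by
    intro n _
    by_contra hcon
    push Not at hcon
    obtain ⟨a, ha, b, hb, c, hc, hab, hac, hbc⟩ := Finset.two_lt_card.1 hcon
    rw [mem_filter] at ha hb hc
    have hm : ∀ i, (![a, b, c] : Fin 3 → ℕ × ℕ × ℕ) i ∈ S ∧ f ((![a, b, c] : Fin 3 → ℕ × ℕ × ℕ) i) = n := by
      intro i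
      fin_cases i
      · exact ha
      · exact hb
      · exact hc
    refine three A B C hA hB hC hAB hAC hBC ![a, b, c] Z1 ρ hZ1 hρ0.le hρ1 ?_ ?_ ?_ ?_
    · intro i
      obtain ⟨h1, h2, h3, h4, h5, h6, h7, h8, h9⟩ := hS _ (hm i).1
      exact ⟨h1, h2, h3, h4, h5, h6, h9⟩
    · intro i j hij
      fin_cases i <;> fin_cases j
      · exact absurd rfl hij
      · exact hab
      · exact hac
      · exact hab.symm
      · exact absurd rfl hij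
      · exact hbc
      · exact hac.symm
      · exact hbc.symm
      · exact absurd rfl hij
    · intro i j
      exact hcl _ (hm i).1 _ (hm j).1
    · intro i j
      have hi := (hm i).2
      have hj := (hm j).2
      set P := (![a, b, c] : Fin 3 → ℕ × ℕ × ℕ) i
      set Q := (![a, b, c] : Fin 3 → ℕ × ℕ × ℕ) j
      have i1 : (n : ℝ) ≤ ((P.1 : ℝ) / P.2.2) / ρ := by
        rw [← hi]; exact Nat.floor_le (by positivity)
      have i2 : ((P.1 : ℝ) / P.2.2) / ρ < n + 1 := by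
        rw [← hi]; exact Nat.lt_floor_add_one _
      have j1 : (n : ℝ) ≤ ((Q.1 : ℝ) / Q.2.2) / ρ := by
        rw [← hj]; exact Nat.floor_le (by positivity)
      have j2 : ((Q.1 : ℝ) / Q.2.2) / ρ < n + 1 := by
        rw [← hj]; exact Nat.lt_floor_add_one _
      have e1 := (le_div_iff₀ hρ0).1 i1
      have e2 := (div_lt_iff₀ hρ0).1 i2
      have e3 := (le_div_iff₀ hρ0).1 j1
      have e4 := (div_lt_iff₀ hρ0).1 j2
      rw [abs_le]
      constructor <;> linarith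
  have hc := Finset.card_le_mul_card_image_of_maps_to hmaps 2 hfib
  rw [card_range] at hc
  have hc' : (S.card : ℝ) ≤ 2 * ((N : ℝ) + 1) := by exact_mod_cast hc
  have hN' : (N : ℝ) ≤ 2 * XX * Z1 / (Z0 * Real.sqrt (B * C)) := Nat.floor_le (by positivity)
  linarith

/-- number of classes -/
theorem classes (hR : Pool.MED.S_RTS) (M : ℕ) (hM : 0 < M) {ι : Type} [DecidableEq ι]
    (S : Finset ι) (y z : ι → ℕ) (hy : ∀ s ∈ S, (y s).Coprime M) (hz : ∀ s ∈ S, (z s).Coprime M)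
    (h : ∀ s ∈ S, ∀ t ∈ S, ((y s : ZMod M) * z t) ^ 2 = ((y t : ZMod M) * z s) ^ 2) :
    (S.image (fun s => (y s : ZMod M) * (z s : ZMod M)⁻¹)).card ≤ 4 ^ M.primeFactors.card := by
  classical
  rcases S.eq_empty_or_nonempty with h0 | ⟨s0, hs0⟩
  · rw [h0]; simp
  have y0 := ZMod.coe_mul_inv_eq_one (y s0) (hy s0 hs0)
  have z0 := ZMod.coe_mul_inv_eq_one (z s0) (hz s0 hs0)
  set T := S.image (fun s => (y s : ZMod M) * (z s : ZMod M)⁻¹) with hT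
  set g : ZMod M → ZMod M := fun w => w * ((z s0 : ZMod M) * (y s0 : ZMod M)⁻¹) with hg
  have hinj : Set.InjOn g T := by
    intro w _ w' _ hw
    have h1 : w * ((z s0 : ZMod M) * (y s0 : ZMod M)⁻¹) =
      w' * ((z s0 : ZMod M) * (y s0 : ZMod M)⁻¹) := hw
    have h2 := congrArg (fun u => u * ((z s0 : ZMod M)⁻¹ * (y s0 : ZMod M))) h1
    calc w = w * ((z s0 : ZMod M) * (z s0 : ZMod M)⁻¹) * ((y s0 : ZMod M) * (y s0 : ZMod M)⁻¹) := by
          rw [y0, z0]; ring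
      _ = w * ((z s0 : ZMod M) * (y s0 : ZMod M)⁻¹) * ((z s0 : ZMod M)⁻¹ * (y s0 : ZMod M)) := by ring
      _ = w' * ((z s0 : ZMod M) * (y s0 : ZMod M)⁻¹) * ((z s0 : ZMod M)⁻¹ * (y s0 : ZMod M)) := h2
      _ = w' * ((z s0 : ZMod M) * (z s0 : ZMod M)⁻¹) * ((y s0 : ZMod M) * (y s0 : ZMod M)⁻¹) := by ring
      _ = w' := by rw [y0, z0]; ring
  rw [← Finset.card_image_of_injOn hinj]
  have h1 := hR M 2 (T.image g) hM (by norm_num) (by
    intro w hw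
    obtain ⟨w1, hw1, rfl⟩ := Finset.mem_image.mp hw
    obtain ⟨s, hs, rfl⟩ := Finset.mem_image.mp hw1
    have zs := ZMod.coe_mul_inv_eq_one (z s) (hz s hs)
    have h2 := h s hs s0 hs0
    simp only [hg]
    calc ((y s : ZMod M) * (z s : ZMod M)⁻¹ * ((z s0 : ZMod M) * (y s0 : ZMod M)⁻¹)) ^ 2 =
        ((y s : ZMod M) * z s0) ^ 2 * ((z s : ZMod M)⁻¹ * (y s0 : ZMod M)⁻¹) ^ 2 := by ring
      _ = ((y s0 : ZMod M) * z s) ^ 2 * ((z s : ZMod M)⁻¹ * (y s0 : ZMod M)⁻¹) ^ 2 := by rw [h2]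
      _ = (((y s0 : ZMod M) * (y s0 : ZMod M)⁻¹) * ((z s : ZMod M) * (z s : ZMod M)⁻¹)) ^ 2 := by ring
      _ = 1 := by rw [y0, zs]; ring)
  simpa using h1

theorem cls_dvd (M : ℕ) (y z y' z' : ℕ) (hz : z.Coprime M) (hz' : z'.Coprime M)
    (h : (y : ZMod M) * (z : ZMod M)⁻¹ = (y' : ZMod M) * (z' : ZMod M)⁻¹) :
    (M : ℤ) ∣ (y : ℤ) * z' - y' * z := by
  have e1 := ZMod.coe_mul_inv_eq_one z hz
  have e2 := ZMod.coe_mul_inv_eq_one z' hz'
  rw [← ZMod.intCast_zmod_eq_zero_iff_dvd]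
  push_cast
  have : (y : ZMod M) * z' = y' * z := by
    calc (y : ZMod M) * z' = (y : ZMod M) * z' * ((z : ZMod M) * (z : ZMod M)⁻¹) := by
          rw [e1]; ring
      _ = ((y : ZMod M) * (z : ZMod M)⁻¹) * (z * z') := by ring
      _ = ((y' : ZMod M) * (z' : ZMod M)⁻¹) * (z * z') := by rw [h]
      _ = (y' : ZMod M) * z * ((z' : ZMod M) * (z' : ZMod M)⁻¹) := by ring
      _ = y' * z := by rw [e2]; ring
  rw [this]
  ring

end Pool.CON
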