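import Mathlib

/-!
# CON: points on the conic `A x² + B y² = C z²` in one class (three lattices)
-/

set_option autoImplicit false

namespace Pool.CON

open Finset

/-- Gram determinant of three points of the conic -/
theorem gram (A B C x1 y1 z1 x2 y2 z2 x3 y3 z3 : ℤ)
    (h1 : A * x1 ^ 2 + B * y1 ^ 2 - C * z1 ^ 2 = 0)
    (h2 : A * x2 ^ 2 + B * y2 ^ 2 - C * z2 ^ 2 = 0)
    (h3 : A * x3 ^ 2 + B * y3 ^ 2 - C * z3 ^ 2 = 0) :
    A * B * C * (x1 * (y2 * z3 - y3 * z2) - x2 * (y1 * z3 - y3 * z1) +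
      x3 * (y1 * z2 - y2 * z1)) ^ 2 =
    2 * (C * (z1 * z2) - A * (x1 * x2) - B * (y1 * y2)) *
      (C * (z1 * z3) - A * (x1 * x3) - B * (y1 * y3)) *
      (C * (z2 * z3) - A * (x2 * x3) - B * (y2 * y3)) := by
  linear_combination
    (-(A * x2 ^ 2 + B * y2 ^ 2 - C * z2 ^ 2) * (A * x3 ^ 2 + B * y3 ^ 2 - C * z3 ^ 2) +
      (C * (z2 * z3) - A * (x2 * x3) - B * (y2 * y3)) ^ 2) * h1 +
    (C * (z1 * z3) - A * (x1 * x3) - B * (y1 * y3)) ^ 2 * h2 +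
    (C * (z1 * z2) - A * (x1 * x2) - B * (y1 * y2)) ^ 2 * h3

theorem bpos (A B C x1 y1 z1 x2 y2 z2 : ℤ) (hA : 0 < A) (hB : 0 < B) (hC : 0 < C)
    (hx1 : 0 < x1) (hy1 : 0 < y1) (hz1 : 0 < z1) (hx2 : 0 < x2) (hy2 : 0 < y2) (hz2 : 0 < z2)
    (h1 : A * x1 ^ 2 + B * y1 ^ 2 - C * z1 ^ 2 = 0)
    (h2 : A * x2 ^ 2 + B * y2 ^ 2 - C * z2 ^ 2 = 0) (hne : x1 * y2 ≠ x2 * y1) :
    0 < C * (z1 * z2) - A * (x1 * x2) - B * (y1 * y2) := by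
  have h3 : (C * (z1 * z2) - A * (x1 * x2) - B * (y1 * y2)) *
      (C * (z1 * z2) + A * (x1 * x2) + B * (y1 * y2)) = A * B * (x1 * y2 - x2 * y1) ^ 2 := by
    linear_combination -(A * x2 ^ 2 + B * y2 ^ 2) * h1 - C * z1 ^ 2 * h2
  have h4 : 0 < A * B * (x1 * y2 - x2 * y1) ^ 2 := by
    have : x1 * y2 - x2 * y1 ≠ 0 := sub_ne_zero.2 hne
    positivity
  have h5 : 0 < C * (z1 * z2) + A * (x1 * x2) + B * (y1 * y2) := by positivity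
  rw [← h3] at h4
  exact (pos_iff_pos_of_mul_pos h4).2 h5

theorem bup (A B C x1 y1 z1 x2 y2 z2 : ℤ) (hA : 0 < A) (hB : 0 < B) (hC : 0 < C)
    (hx1 : 0 < x1) (hy1 : 0 < y1) (hz1 : 0 < z1) (hx2 : 0 < x2) (hy2 : 0 < y2) (hz2 : 0 < z2)
    (h1 : A * x1 ^ 2 + B * y1 ^ 2 - C * z1 ^ 2 = 0)
    (h2 : A * x2 ^ 2 + B * y2 ^ 2 - C * z2 ^ 2 = 0)
    (k1 : A * x1 ^ 2 ≤ B * y1 ^ 2) (k2 : A * x2 ^ 2 ≤ B * y2 ^ 2)
    (hb : 0 ≤ C * (z1 * z2) - A * (x1 * x2) - B * (y1 * y2)) :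
    (C * (z1 * z2) - A * (x1 * x2) - B * (y1 * y2)) * (z1 * z2) ≤
      A * (x1 * z2 - x2 * z1) ^ 2 := by
  have h3 : (C * (z1 * z2) - A * (x1 * x2) - B * (y1 * y2)) *
      (C * (z1 * z2) - A * (x1 * x2) + B * (y1 * y2)) = A * C * (x1 * z2 - x2 * z1) ^ 2 := by
    linear_combination (A * x2 ^ 2 - C * z2 ^ 2) * h1 - B * y1 ^ 2 * h2
  have h4 : A * (x1 * x2) ≤ B * (y1 * y2) := by
    have h5 : (A * (x1 * x2)) ^ 2 ≤ (B * (y1 * y2)) ^ 2 := by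
      have h6 : (A * x1 ^ 2) * (A * x2 ^ 2) ≤ (B * y1 ^ 2) * (B * y2 ^ 2) :=
        mul_le_mul k1 k2 (by positivity) (by positivity)
      nlinarith [h6]
    exact (pow_le_pow_iff_left₀ (by positivity) (by positivity) (by norm_num)).1 h5
  have h7 : (C * (z1 * z2) - A * (x1 * x2) - B * (y1 * y2)) * (C * (z1 * z2)) ≤
      A * C * (x1 * z2 - x2 * z1) ^ 2 := by
    rw [← h3]
    exact mul_le_mul_of_nonneg_left (by linarith) hb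
  have h8 : C * ((C * (z1 * z2) - A * (x1 * x2) - B * (y1 * y2)) * (z1 * z2)) ≤
      C * (A * (x1 * z2 - x2 * z1) ^ 2) := by nlinarith [h7]
  exact le_of_mul_le_mul_left h8 hC

/-- three points of one class are not close to each other -/
theorem three (A B C : ℕ) (hA : 0 < A) (hB : 0 < B) (hC : 0 < C) (hAB : A.Coprime B)
    (hAC : A.Coprime C) (hBC : B.Coprime C) (P : Fin 3 → ℕ × ℕ × ℕ) (Z1 ρ : ℝ) (hZ1 : 0 < Z1)
    (hρ0 : 0 ≤ ρ) (hρ : 4 * Z1 ^ 2 * ρ ^ 2 ≤ B * C)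
    (hP : ∀ i, 0 < (P i).1 ∧ 0 < (P i).2.1 ∧ 0 < (P i).2.2 ∧ (P i).1.Coprime (P i).2.1 ∧
      A * (P i).1 ^ 2 + B * (P i).2.1 ^ 2 = C * (P i).2.2 ^ 2 ∧
      A * (P i).1 ^ 2 ≤ B * (P i).2.1 ^ 2 ∧ ((P i).2.2 : ℝ) ≤ Z1)
    (hne : ∀ i j, i ≠ j → (P i) ≠ P j)
    (hcl : ∀ i j, (A : ℤ) ∣ (P i).2.1 * (P j).2.2 - (P j).2.1 * (P i).2.2 ∧
      (B : ℤ) ∣ (P i).1 * (P j).2.2 - (P j).1 * (P i).2.2 ∧
      (C : ℤ) ∣ (P i).1 * (P j).2.1 - (P j).1 * (P i).2.1)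
    (hcl2 : ∀ i j, |((P i).1 : ℝ) / (P i).2.2 - ((P j).1 : ℝ) / (P j).2.2| ≤ ρ) : False := by
  have hA' : (0 : ℤ) < A := by exact_mod_cast hA
  have hB' : (0 : ℤ) < B := by exact_mod_cast hB
  have hC' : (0 : ℤ) < C := by exact_mod_cast hC
  have hpos : ∀ i, (0 : ℤ) < (P i).1 ∧ (0 : ℤ) < (P i).2.1 ∧ (0 : ℤ) < (P i).2.2 := fun i =>
    ⟨by exact_mod_cast (hP i).1, by exact_mod_cast (hP i).2.1, by exact_mod_cast (hP i).2.2.1⟩
  have hQ : ∀ i, (A : ℤ) * ((P i).1 : ℤ) ^ 2 + B * ((P i).2.1 : ℤ) ^ 2 -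
      C * ((P i).2.2 : ℤ) ^ 2 = 0 := fun i => by
    have := (hP i).2.2.2.2.1
    have h2 : (A : ℤ) * ((P i).1 : ℤ) ^ 2 + B * ((P i).2.1 : ℤ) ^ 2 =
      C * ((P i).2.2 : ℤ) ^ 2 := by exact_mod_cast this
    linarith
  have hO : ∀ i, (A : ℤ) * ((P i).1 : ℤ) ^ 2 ≤ B * ((P i).2.1 : ℤ) ^ 2 := fun i => by
    exact_mod_cast (hP i).2.2.2.2.2.1
  -- different points have different ratios
  have hrat : ∀ i j, i ≠ j → ((P i).1 : ℤ) * (P j).2.1 ≠ (P j).1 * (P i).2.1 := by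
    intro i j hij h
    have h' : (P i).1 * (P j).2.1 = (P j).1 * (P i).2.1 := by exact_mod_cast h
    have c1 := (hP i).2.2.2.1
    have c2 := (hP j).2.2.2.1
    have e1 : (P i).1 = (P j).1 := by
      apply Nat.dvd_antisymm
      · exact c1.dvd_of_dvd_mul_right ⟨(P j).2.1, by rw [← h']⟩
      · exact c2.dvd_of_dvd_mul_right ⟨(P i).2.1, by rw [h']⟩
    have e2 : (P i).2.1 = (P j).2.1 := by
      rw [e1] at h'
      exact (Nat.eq_of_mul_eq_mul_left (hP j).1 h').symm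
    have e3 : (P i).2.2 = (P j).2.2 := by
      have q1 := (hP i).2.2.2.2.1
      have q2 := (hP j).2.2.2.2.1
      rw [e1, e2, q2] at q1
      have q3 := Nat.eq_of_mul_eq_mul_left hC q1
      exact (Nat.pow_left_injective (by norm_num : (2:ℕ) ≠ 0) q3).symm
    exact hne i j hij (Prod.ext e1 (Prod.ext e2 e3))
  set b : Fin 3 → Fin 3 → ℤ := fun i j => (C : ℤ) * ((P i).2.2 * (P j).2.2) -
    A * ((P i).1 * (P j).1) - B * ((P i).2.1 * (P j).2.1) with hb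
  have hbp : ∀ i j, i ≠ j → 0 < b i j := fun i j hij =>
    bpos A B C _ _ _ _ _ _ hA' hB' hC' (hpos i).1 (hpos i).2.1 (hpos i).2.2 (hpos j).1
      (hpos j).2.1 (hpos j).2.2 (hQ i) (hQ j) (hrat i j hij)
  -- upper bound
  have hbu : ∀ i j, i ≠ j → (b i j : ℝ) ≤ (A * B * C : ℝ) / 4 := by
    intro i j hij
    have h1 := bup A B C _ _ _ _ _ _ hA' hB' hC' (hpos i).1 (hpos i).2.1 (hpos i).2.2 (hpos j).1
      (hpos j).2.1 (hpos j).2.2 (hQ i) (hQ j) (hO i) (hO j) (hbp i j hij).le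
    have h2 : (b i j : ℝ) * (((P i).2.2 : ℝ) * (P j).2.2) ≤
        A * (((P i).1 : ℝ) * (P j).2.2 - (P j).1 * (P i).2.2) ^ 2 := by
      have := (Int.cast_le (R := ℝ)).2 h1
      push_cast at this
      simp only [hb]
      push_cast
      linarith
    have zi : (0 : ℝ) < (P i).2.2 := by exact_mod_cast (hP i).2.2.1
    have zj : (0 : ℝ) < (P j).2.2 := by exact_mod_cast (hP j).2.2.1
    have h3 : ((P i).1 : ℝ) * (P j).2.2 - (P j).1 * (P i).2.2 =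
        (((P i).1 : ℝ) / (P i).2.2 - ((P j).1 : ℝ) / (P j).2.2) * ((P i).2.2 * (P j).2.2) := by
      field_simp
    have h4 : (((P i).1 : ℝ) / (P i).2.2 - ((P j).1 : ℝ) / (P j).2.2) ^ 2 ≤ ρ ^ 2 := by
      rw [← sq_abs]
      exact pow_le_pow_left₀ (abs_nonneg _) (hcl2 i j) 2
    have h5 : (b i j : ℝ) ≤ A * (ρ ^ 2 * ((P i).2.2 * (P j).2.2)) := by
      rw [h3, mul_pow] at h2
      have h6 : (b i j : ℝ) * (((P i).2.2 : ℝ) * (P j).2.2) ≤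
          (A * (ρ ^ 2 * ((P i).2.2 * (P j).2.2))) * (((P i).2.2 : ℝ) * (P j).2.2) := by
        refine h2.trans ?_
        have h7 := mul_le_mul_of_nonneg_right h4
          (by positivity : (0 : ℝ) ≤ A * (((P i).2.2 : ℝ) * (P j).2.2) ^ 2)
        nlinarith [h7]
      exact le_of_mul_le_mul_right h6 (by positivity)
    have h8 : ((P i).2.2 : ℝ) * (P j).2.2 ≤ Z1 ^ 2 := by
      rw [sq]
      exact mul_le_mul (hP i).2.2.2.2.2.2 (hP j).2.2.2.2.2.2 zj.le hZ1.le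
    have h9 : (A : ℝ) * (ρ ^ 2 * ((P i).2.2 * (P j).2.2)) ≤ A * (ρ ^ 2 * Z1 ^ 2) := by
      gcongr
    have h10 : (A : ℝ) * (ρ ^ 2 * Z1 ^ 2) ≤ A * (B * C / 4) := by
      refine mul_le_mul_of_nonneg_left ?_ (Nat.cast_nonneg _)
      linarith
    calc (b i j : ℝ) ≤ _ := h5
      _ ≤ _ := h9
      _ ≤ _ := h10
      _ = _ := by ring
  -- the determinant
  have hG := gram A B C _ _ _ _ _ _ _ _ _ (hQ 0) (hQ 1) (hQ 2)
  set D : ℤ := (((P 0).1 : ℤ) * ((P 1).2.1 * (P 2).2.2 - (P 2).2.1 * (P 1).2.2) -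
    (P 1).1 * ((P 0).2.1 * (P 2).2.2 - (P 2).2.1 * (P 0).2.2) +
    (P 2).1 * ((P 0).2.1 * (P 1).2.2 - (P 1).2.1 * (P 0).2.2)) with hD
  have hG' : (A : ℤ) * B * C * D ^ 2 = 2 * b 0 1 * b 0 2 * b 1 2 := hG
  have dA : (A : ℤ) ∣ D := by
    rw [hD]
    exact dvd_add (dvd_sub (dvd_mul_of_dvd_right (hcl 1 2).1 _) (dvd_mul_of_dvd_right (hcl 0 2).1 _))
      (dvd_mul_of_dvd_right (hcl 0 1).1 _)
  have dB : (B : ℤ) ∣ D := by
    have e : D = (P 1).2.1 * ((P 0).1 * (P 2).2.2 - (P 2).1 * (P 0).2.2) -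
        (P 0).2.1 * ((P 1).1 * (P 2).2.2 - (P 2).1 * (P 1).2.2) -
        (P 2).2.1 * ((P 0).1 * (P 1).2.2 - (P 1).1 * (P 0).2.2) := by rw [hD]; ring
    rw [e]
    exact dvd_sub (dvd_sub (dvd_mul_of_dvd_right (hcl 0 2).2.1 _)
      (dvd_mul_of_dvd_right (hcl 1 2).2.1 _)) (dvd_mul_of_dvd_right (hcl 0 1).2.1 _)
  have dC : (C : ℤ) ∣ D := by
    have e : D = (P 0).2.2 * ((P 1).1 * (P 2).2.1 - (P 2).1 * (P 1).2.1) -
        (P 1).2.2 * ((P 0).1 * (P 2).2.1 - (P 2).1 * (P 0).2.1) +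
        (P 2).2.2 * ((P 0).1 * (P 1).2.1 - (P 1).1 * (P 0).2.1) := by rw [hD]; ring
    rw [e]
    exact dvd_add (dvd_sub (dvd_mul_of_dvd_right (hcl 1 2).2.2 _)
      (dvd_mul_of_dvd_right (hcl 0 2).2.2 _)) (dvd_mul_of_dvd_right (hcl 0 1).2.2 _)
  have dABC : (A : ℤ) * B * C ∣ D := by
    have c1 : IsCoprime (A : ℤ) B := Nat.isCoprime_iff_coprime.2 hAB
    have c2 : IsCoprime (A : ℤ) C := Nat.isCoprime_iff_coprime.2 hAC
    have c3 : IsCoprime (B : ℤ) C := Nat.isCoprime_iff_coprime.2 hBC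
    exact (IsCoprime.mul_left c2 c3).mul_dvd (c1.mul_dvd dA dB) dC
  have hbpos : 0 < 2 * b 0 1 * b 0 2 * b 1 2 := by
    have h1 := hbp 0 1 (by decide)
    have h2 := hbp 0 2 (by decide)
    have h3 := hbp 1 2 (by decide)
    positivity
  have hD0 : D ≠ 0 := by
    intro h
    rw [h] at hG'
    rw [← hG'] at hbpos
    norm_num at hbpos
  have hN : (0 : ℤ) < A * B * C := by positivity
  have hD2 : ((A : ℤ) * B * C) ^ 2 ≤ D ^ 2 := by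
    rw [← sq_abs D]
    have : (A : ℤ) * B * C ≤ |D| := Int.le_of_dvd (abs_pos.2 hD0) ((dvd_abs _ _).2 dABC)
    exact pow_le_pow_left₀ hN.le this 2
  have hlow : ((A : ℤ) * B * C) ^ 3 ≤ 2 * b 0 1 * b 0 2 * b 1 2 := by
    rw [← hG']
    nlinarith [hD2, hN]
  have hlow' : ((A : ℝ) * B * C) ^ 3 ≤ 2 * b 0 1 * b 0 2 * b 1 2 := by
    have := (Int.cast_le (R := ℝ)).2 hlow
    push_cast at this
    exact this
  have u1 := hbu 0 1 (by decide)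
  have u2 := hbu 0 2 (by decide)
  have u3 := hbu 1 2 (by decide)
  have p1 : (0 : ℝ) < b 0 1 := by exact_mod_cast hbp 0 1 (by decide)
  have p2 : (0 : ℝ) < b 0 2 := by exact_mod_cast hbp 0 2 (by decide)
  have p3 : (0 : ℝ) < b 1 2 := by exact_mod_cast hbp 1 2 (by decide)
  have hNr : (0 : ℝ) < (A : ℝ) * B * C := by exact_mod_cast hN
  have hup : 2 * (b 0 1 : ℝ) * b 0 2 * b 1 2 ≤
      2 * ((A * B * C : ℝ) / 4) * ((A * B * C : ℝ) / 4) * ((A * B * C : ℝ) / 4) := by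
    gcongr
  have : ((A : ℝ) * B * C) ^ 3 ≤ ((A : ℝ) * B * C) ^ 3 / 32 := by
    refine (hlow'.trans hup).trans (le_of_eq ?_)
    ring
  have h3 : 0 < ((A : ℝ) * B * C) ^ 3 := by positivity
  linarith

end Pool.CON
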