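import Pool.Agent.H98.KON.Cls

/-!
# CON: fixed coefficients
-/

set_option autoImplicit false

namespace Pool.CON

open Finset

theorem zsq {M : ℕ} {P Q y z y' z' : ZMod M} (hu : IsUnit (P * Q)) (h : P * y ^ 2 = Q * z ^ 2)
    (h' : P * y' ^ 2 = Q * z' ^ 2) : (y * z') ^ 2 = (y' * z) ^ 2 := by
  have e : P * Q * (y * z') ^ 2 = P * Q * (y' * z) ^ 2 := by
    calc P * Q * (y * z') ^ 2 = (P * y ^ 2) * (Q * z' ^ 2) := by ring
      _ = (Q * z ^ 2) * (P * y' ^ 2) := by rw [h, ← h']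
      _ = _ := by ring
  exact hu.mul_left_cancel e

/-- points on the conic, fixed coefficients -/
theorem fixed (hR : Pool.MED.S_RTS) (A B C : ℕ) (hA : 0 < A) (hB : 0 < B) (hC : 0 < C)
    (hAB : A.Coprime B) (hAC : A.Coprime C) (hBC : B.Coprime C) (S : Finset (ℕ × ℕ × ℕ))
    (XX Z0 Z1 : ℝ) (hX : 0 ≤ XX) (hZ0 : 0 < Z0) (hZ1 : 0 < Z1)
    (hS : ∀ s ∈ S, 0 < s.1 ∧ 0 < s.2.1 ∧ 0 < s.2.2 ∧ s.1.Coprime s.2.1 ∧
      A * s.1 ^ 2 + B * s.2.1 ^ 2 = C * s.2.2 ^ 2 ∧ A * s.1 ^ 2 ≤ B * s.2.1 ^ 2 ∧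
      (s.1 : ℝ) ≤ XX ∧ Z0 ≤ s.2.2 ∧ (s.2.2 : ℝ) ≤ Z1)
    (hK : ∀ s ∈ S, s.2.1.Coprime A ∧ s.2.2.Coprime A ∧ s.1.Coprime B ∧ s.2.2.Coprime B ∧
      s.1.Coprime C ∧ s.2.1.Coprime C) :
    (S.card : ℝ) ≤ ((4 : ℝ) ^ A.primeFactors.card * 4 ^ B.primeFactors.card *
      4 ^ C.primeFactors.card) * (2 * (1 + 2 * XX * Z1 / (Z0 * Real.sqrt (B * C)))) := by
  classical
  set b : ℝ := 2 * (1 + 2 * XX * Z1 / (Z0 * Real.sqrt (B * C))) with hb
  have hb0 : 0 ≤ b := by rw [hb]; positivity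
  set kA : ℕ × ℕ × ℕ → ZMod A := fun s => (s.2.1 : ZMod A) * (s.2.2 : ZMod A)⁻¹ with hkA
  set kB : ℕ × ℕ × ℕ → ZMod B := fun s => (s.1 : ZMod B) * (s.2.2 : ZMod B)⁻¹ with hkB
  set kC : ℕ × ℕ × ℕ → ZMod C := fun s => (s.1 : ZMod C) * (s.2.1 : ZMod C)⁻¹ with hkC
  have cA : (S.image kA).card ≤ 4 ^ A.primeFactors.card := by
    refine classes hR A hA S (fun s => s.2.1) (fun s => s.2.2) (fun s hs => (hK s hs).1)
      (fun s hs => (hK s hs).2.1) fun s hs t ht => ?_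
    have hu : IsUnit ((B : ZMod A) * (C : ZMod A)) :=
      (ZMod.isUnit_iff_coprime _ _ |>.2 hAB.symm).mul (ZMod.isUnit_iff_coprime _ _ |>.2 hAC.symm)
    have key : ∀ s ∈ S, (B : ZMod A) * (s.2.1 : ZMod A) ^ 2 = C * (s.2.2 : ZMod A) ^ 2 := by
      intro s hs
      have h := congrArg (fun n : ℕ => (n : ZMod A)) (hS s hs).2.2.2.2.1
      push_cast at h
      rw [← h, ZMod.natCast_self]
      ring
    exact zsq hu (key s hs) (key t ht)
  have cB : (S.image kB).card ≤ 4 ^ B.primeFactors.card := by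
    refine classes hR B hB S (fun s => s.1) (fun s => s.2.2) (fun s hs => (hK s hs).2.2.1)
      (fun s hs => (hK s hs).2.2.2.1) fun s hs t ht => ?_
    have hu : IsUnit ((A : ZMod B) * (C : ZMod B)) :=
      (ZMod.isUnit_iff_coprime _ _ |>.2 hAB).mul (ZMod.isUnit_iff_coprime _ _ |>.2 hBC.symm)
    have key : ∀ s ∈ S, (A : ZMod B) * (s.1 : ZMod B) ^ 2 = C * (s.2.2 : ZMod B) ^ 2 := by
      intro s hs
      have h := congrArg (fun n : ℕ => (n : ZMod B)) (hS s hs).2.2.2.2.1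
      push_cast at h
      rw [← h, ZMod.natCast_self]
      ring
    exact zsq hu (key s hs) (key t ht)
  have cC : (S.image kC).card ≤ 4 ^ C.primeFactors.card := by
    refine classes hR C hC S (fun s => s.1) (fun s => s.2.1) (fun s hs => (hK s hs).2.2.2.2.1)
      (fun s hs => (hK s hs).2.2.2.2.2) fun s hs t ht => ?_
    have hu : IsUnit ((A : ZMod C) * (-B : ZMod C)) :=
      (ZMod.isUnit_iff_coprime _ _ |>.2 hAC).mul (ZMod.isUnit_iff_coprime _ _ |>.2 hBC).neg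
    have key : ∀ s ∈ S, (A : ZMod C) * (s.1 : ZMod C) ^ 2 = (-B) * (s.2.1 : ZMod C) ^ 2 := by
      intro s hs
      have h := congrArg (fun n : ℕ => (n : ZMod C)) (hS s hs).2.2.2.2.1
      push_cast at h
      rw [ZMod.natCast_self] at h
      linear_combination h
    exact zsq hu (key s hs) (key t ht)
  set key : ℕ × ℕ × ℕ → ZMod A × ZMod B × ZMod C := fun s => (kA s, kB s, kC s) with hkey
  set T := S.image kA ×ˢ (S.image kB ×ˢ S.image kC) with hT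
  have hmaps : Set.MapsTo key (S : Set (ℕ × ℕ × ℕ)) T := by
    intro s hs
    have hs' := Finset.mem_coe.1 hs
    refine Finset.mem_coe.2 ?_
    rw [hT, mem_product, mem_product]
    exact ⟨mem_image_of_mem _ hs', mem_image_of_mem _ hs', mem_image_of_mem _ hs'⟩
  have hfib : ∀ q ∈ T, (((S.filter (fun s => key s = q)).card : ℕ) : ℝ) ≤ b := by
    intro q _
    refine oneclass A B C hA hB hC hAB hAC hBC _ XX Z0 Z1 hX hZ0 hZ1
      (fun s hs => hS s (mem_filter.1 hs).1) fun s hs t ht => ?_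
    rw [mem_filter] at hs ht
    have e : key s = key t := hs.2.trans ht.2.symm
    simp only [hkey, Prod.mk.injEq] at e
    exact ⟨cls_dvd A _ _ _ _ (hK s hs.1).2.1 (hK t ht.1).2.1 e.1,
      cls_dvd B _ _ _ _ (hK s hs.1).2.2.2.1 (hK t ht.1).2.2.2.1 e.2.1,
      cls_dvd C _ _ _ _ (hK s hs.1).2.2.2.2.2 (hK t ht.1).2.2.2.2.2 e.2.2⟩
  have hsum : (S.card : ℝ) ≤ T.card * b := by
    rw [Finset.card_eq_sum_card_fiberwise hmaps]
    push_cast
    calc ∑ q ∈ T, ((S.filter (fun s => key s = q)).card : ℝ) ≤ ∑ _q ∈ T, b :=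
          Finset.sum_le_sum hfib
      _ = _ := by rw [Finset.sum_const, nsmul_eq_mul]
  refine hsum.trans (mul_le_mul_of_nonneg_right ?_ hb0)
  have hTc : T.card ≤ 4 ^ A.primeFactors.card * 4 ^ B.primeFactors.card *
      4 ^ C.primeFactors.card := by
    rw [hT, card_product, card_product, mul_assoc]
    exact Nat.mul_le_mul cA (Nat.mul_le_mul cB cC)
  exact_mod_cast hTc

end Pool.CON
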