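import Pool.Agent.H10.LDV2.Stmts

/-!
# LDV2, Kane's bound: `Alt2` with the exponent `max m (1 - m)` at every height `m` (tools L and CON)
-/

set_option autoImplicit false

namespace Pool.LDV2

open Finset Pool.Agent.H98.ABCR Pool.SHA Pool.BL

/-- KANE: exponent `max m (1 - m)` for every `m` -/
theorem kane (J : ℕ) (m : ℝ) (p : Fin 3 → ℕ → ℝ) (t : Fin 3 → ℝ) (a : Fin 3) (hJ : 5 ≤ J)
    (hp : ∀ l e, 0 ≤ p l e) (ht : ∀ l, 0 ≤ t l) (hsum : ∑ l, ∑ e ∈ Icc 1 J, p l e ≤ 1)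
    (hi : ∀ i, i ≠ a → t i + ∑ e ∈ Icc 1 J, (e : ℝ) * p i e = m)
    (ha : t a + ∑ e ∈ Icc 1 J, (e : ℝ) * p a e ≤ m) : Alt2 J (max m (1 - m)) m p t a := by
  by_contra hA
  have hIcc : Icc 1 J = insert 1 (Icc 2 J) := by
    ext n
    simp only [mem_Icc, mem_insert]
    omega
  have hIcc2 : Icc 2 J = insert 2 (Icc 3 J) := by
    ext n
    simp only [mem_Icc, mem_insert]
    omega
  have hnot : (1 : ℕ) ∉ Icc 2 J := by simp
  have hnot2 : (2 : ℕ) ∉ Icc 3 J := by simp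
  have hs1 : ∀ l, ∑ e ∈ Icc 1 J, p l e = p l 1 + (p l 2 + ∑ e ∈ Icc 3 J, p l e) := by
    intro l
    rw [hIcc, sum_insert hnot, hIcc2, sum_insert hnot2]
  have hs12 : ∀ l, ∑ e ∈ Icc 2 J, p l e = (p l 2 + ∑ e ∈ Icc 3 J, p l e) := by
    intro l
    rw [hIcc2, sum_insert hnot2]
  have hs22 : ∀ l, ∑ e ∈ Icc 2 J, (e : ℝ) * p l e =
      2 * p l 2 + ∑ e ∈ Icc 3 J, (e : ℝ) * p l e := by
    intro l
    rw [hIcc2, sum_insert hnot2]
    push_cast
    ring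
  have hs2 : ∀ l, ∑ e ∈ Icc 1 J, (e : ℝ) * p l e =
      p l 1 + (2 * p l 2 + ∑ e ∈ Icc 3 J, (e : ℝ) * p l e) := by
    intro l
    rw [hIcc, sum_insert hnot, ← hs22]
    push_cast
    ring
  have hs3 : ∀ l, 3 * ∑ e ∈ Icc 3 J, p l e ≤ ∑ e ∈ Icc 3 J, (e : ℝ) * p l e := by
    intro l
    rw [mul_sum]
    refine sum_le_sum fun e he => ?_
    have h2 : (3 : ℝ) ≤ e := by exact_mod_cast (mem_Icc.mp he).1
    exact mul_le_mul_of_nonneg_right h2 (hp l e)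
  have hG : ∀ l, t l + ∑ e ∈ Icc 1 J, (e : ℝ) * p l e ≤ m := by
    intro l
    by_cases h : l = a
    · rw [h]
      exact ha
    · exact (hi l h).le
  have hm1 := le_max_left m (1 - m)
  have hm2 := le_max_right m (1 - m)
  rw [Fin.sum_univ_three] at hsum
  -- the conic tool fails
  have hcon : max m (1 - m) < (∑ l, (∑ e ∈ Icc 1 J, p l e - p l 2)) +
      max 0 (p 0 2 + p 1 2 + p 2 2 - m) := by
    by_contra h
    apply hA
    right; right; right; right; right; right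
    exact le_of_not_gt h
  rw [Fin.sum_univ_three] at hcon
  have g0 := hG 0
  have g1 := hG 1
  have g2 := hG 2
  have t0 := ht 0
  have t1 := ht 1
  have t2 := ht 2
  have c0 := hs3 0
  have c1 := hs3 1
  have c2 := hs3 2
  -- the lattice tool fails
  have main : ∀ i j k : Fin 3, i ≠ j → i ≠ k → j ≠ k → i ≠ a →
      max m (1 - m) < ∑ n ∈ Icc 2 J, p i n + (∑ n ∈ Icc 1 J, p j n - p j 1) +
      (∑ n ∈ Icc 1 J, p k n - p k 1) +
      max 0 (p j 1 + p k 1 - (m - p i 1)) := by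
    intro i j k hij hik hjk hia
    by_contra h
    apply hA
    right; right; right; left
    refine ⟨i, j, k, Icc 2 J, 1, hij, hik, hjk, Icc_subset_Icc_left (by norm_num),
      mem_Icc.mpr ⟨le_rfl, by omega⟩, ?_⟩
    have e0 := hi i hia
    have e1 : t i + ∑ n ∈ Icc 2 J, (n : ℝ) * p i n = m - p i 1 := by
      rw [hs2, ← hs22] at e0
      linarith
    rw [e1]
    exact le_of_not_gt h
  have fin : (max m (1 - m) < (p 0 2 + ∑ e ∈ Icc 3 J, p 0 e) + (p 1 2 + ∑ e ∈ Icc 3 J, p 1 e) +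
      (p 2 2 + ∑ e ∈ Icc 3 J, p 2 e) + max 0 (p 0 1 + p 1 1 + p 2 1 - m)) → False := by
    intro h
    simp only [hs1, hs2] at g0 g1 g2 hsum hcon
    rcases le_total (p 0 1 + p 1 1 + p 2 1 - m) 0 with h1 | h1
    · rw [max_eq_left h1] at h
      rcases le_total (p 0 2 + p 1 2 + p 2 2 - m) 0 with h2 | h2
      · rw [max_eq_left h2] at hcon
        linarith
      · rw [max_eq_right h2] at hcon
        linarith
    · rw [max_eq_right h1] at h
      linarith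
  fin_cases a
  · have := main 1 0 2 (by decide) (by decide) (by decide) (by decide)
    rw [hs12, hs1, hs1] at this
    apply fin
    rw [show p 0 1 + p 2 1 - (m - p 1 1) = p 0 1 + p 1 1 + p 2 1 - m by ring] at this
    linarith
  · have := main 0 1 2 (by decide) (by decide) (by decide) (by decide)
    rw [hs12, hs1, hs1] at this
    apply fin
    rw [show p 1 1 + p 2 1 - (m - p 0 1) = p 0 1 + p 1 1 + p 2 1 - m by ring] at this
    linarith
  · have := main 0 1 2 (by decide) (by decide) (by decide) (by decide)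
    rw [hs12, hs1, hs1] at this
    apply fin
    rw [show p 1 1 + p 2 1 - (m - p 0 1) = p 0 1 + p 1 1 + p 2 1 - m by ring] at this
    linarith

theorem alt2_mono {J : ℕ} {T T' m : ℝ} {p : Fin 3 → ℕ → ℝ} {t : Fin 3 → ℝ} {a : Fin 3}
    (hT : T ≤ T') (h : Alt2 J T m p t a) : Alt2 J T' m p t a := by
  rcases h with ⟨j, k, h1, h2⟩ | ⟨i, j, k, e, f, h1, h2, h3, h4, h5, h6⟩ |
    ⟨i, j, k, K, h1, h2, h3, h4, h5⟩ | ⟨i, j, k, K, e, h1, h2, h3, h4, h5, h6⟩ |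
    ⟨k, l, e, h1, h2, h3, h4, h5⟩ | ⟨i, j, k, E, K, d, h1, h2, h3, h4, h5, h6, h7, h8, h9, h10, h11⟩ |
    h1
  · exact Or.inl ⟨j, k, h1, h2.trans hT⟩
  · exact Or.inr (Or.inl ⟨i, j, k, e, f, h1, h2, h3, h4, h5, h6.trans hT⟩)
  · exact Or.inr (Or.inr (Or.inl ⟨i, j, k, K, h1, h2, h3, h4, h5.trans hT⟩))
  · exact Or.inr (Or.inr (Or.inr (Or.inl ⟨i, j, k, K, e, h1, h2, h3, h4, h5, h6.trans hT⟩)))
  · exact Or.inr (Or.inr (Or.inr (Or.inr (Or.inl ⟨k, l, e, h1, h2, h3, h4, h5.trans hT⟩))))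
  · exact Or.inr (Or.inr (Or.inr (Or.inr (Or.inr (Or.inl
      ⟨i, j, k, E, K, d, h1, h2, h3, h4, h5, h6, h7, h8, h9, h10.trans hT, h11.trans hT⟩)))))
  · exact Or.inr (Or.inr (Or.inr (Or.inr (Or.inr (Or.inr (h1.trans hT))))))

/-- the choice lemma for heights `≥ X ^ T` only -/
def CHH (T : ℝ) : Prop := ∀ (J : ℕ) (m : ℝ) (p : Fin 3 → ℕ → ℝ) (t : Fin 3 → ℝ) (a : Fin 3),
  5 ≤ J → T ≤ m → (∀ l e, 0 ≤ p l e) → (∀ l, 0 ≤ t l) → ∑ l, ∑ e ∈ Icc 1 J, p l e ≤ 1 →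
  (∀ i, i ≠ a → t i + ∑ e ∈ Icc 1 J, (e : ℝ) * p i e = m) →
  t a + ∑ e ∈ Icc 1 J, (e : ℝ) * p a e ≤ m → Alt2 J T m p t a

/-- the range `1 - T ≤ m ≤ T` costs nothing -/
theorem cht_of_chh {T : ℝ} (h : CHH T) : CHT T := by
  intro J m p t a hJ hm hp ht hsum hi ha
  rcases le_total T m with h1 | h1
  · exact h J m p t a hJ h1 hp ht hsum hi ha
  · exact alt2_mono (max_le h1 (by linarith)) (kane J m p t a hJ hp ht hsum hi ha)

end Pool.LDV2
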