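import Pool.Agent.H10.BL.Stmts

/-!
# CON: the conic tool

`a = A x²`, `b = B y²`, `c = C z²` (`x, y, z` the layers `2`).  Fix the cofactors and one class of
`y / z` modulo `A`, `x / z` modulo `B`, `x / y` modulo `C`.  For three solutions `A B C` divides the
determinant, and with `B_ij = C z_i z_j - A x_i x_j - B y_i y_j > 0` the Gram determinant is
`A B C det ^ 2 = 2 B_12 B_13 B_23`.  If `a ≤ b`: `B_ij ≤ A z_i z_j (x_i / z_i - x_j / z_j) ^ 2`.  So at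
most two solutions have `x / z` in an interval of length `√(B C) / (2 z_max)`.
-/

set_option autoImplicit false

namespace Pool.CON

open Finset Pool.Agent.H98.ABCR Pool.SHA Pool.BL

/-- CON: points on conics; heights between `X ^ m` and `X ^ (m + δ)` -/
def S_CON : Prop := ∀ (J : ℕ) (κ ε : ℝ), 2 ≤ J → 1 ≤ κ → 0 < ε → ∃ C : ℝ, 1 ≤ C ∧
  ∀ (X τ m δ : ℝ) (F : Finset (ℕ × ℕ)) (p : Fin 3 → ℕ → ℝ), 1 ≤ X → 0 ≤ τ → 0 ≤ δ →
  (∀ l e, 0 ≤ p l e ∧ p l e ≤ 2) →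
  (∀ v ∈ F, IsTri v ∧ hh v ≤ κ * Real.log X ∧ (∀ l, Prof J X τ (p l) (coord v l)) ∧
    m * Real.log X ≤ hh v ∧ hh v ≤ (m + δ) * Real.log X) →
  (F.card : ℝ) ≤ C * X ^ (ε + 4 * τ + δ + (∑ n ∈ Icc 1 J, p 0 n - p 0 2) +
    (∑ n ∈ Icc 1 J, p 1 n - p 1 2) + (∑ n ∈ Icc 1 J, p 2 n - p 2 2) +
    max 0 (p 0 2 + p 1 2 + p 2 2 - m))

end Pool.CON
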