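import Pool.Agent.H98.KON.Fix
import Pool.Agent.H98.KON.Stmts
import Pool.Agent.H71.BL.CTL

/-!
# CON: the conic tool
-/

set_option autoImplicit false

namespace Pool.CON

open Finset Pool.Agent.H98.ABCR Pool.SHA Pool.BL Pool.RIC.H71R

/-- fixed coefficients, real exponents -/
theorem fixed2 (hR : Pool.MED.S_RTS) (A B C : ℕ) (hA : 0 < A) (hB : 0 < B) (hC : 0 < C)
    (hAB : A.Coprime B) (hAC : A.Coprime C) (hBC : B.Coprime C) (F : Finset (ℕ × ℕ))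
    (x y z : ℕ × ℕ → ℕ) (X m δ px py pz : ℝ) (hX : 1 ≤ X) (hδ : 0 ≤ δ)
    (inj : ∀ v ∈ F, ∀ w ∈ F, x v = x w → y v = y w → v = w)
    (h : ∀ v ∈ F, 0 < x v ∧ 0 < y v ∧ 0 < z v ∧ (x v).Coprime (y v) ∧
      A * x v ^ 2 + B * y v ^ 2 = C * z v ^ 2 ∧ A * x v ^ 2 ≤ B * y v ^ 2 ∧
      (x v : ℝ) ≤ X ^ px ∧ (y v : ℝ) ≤ X ^ py ∧ (z v : ℝ) ≤ X ^ pz ∧
      X ^ m ≤ (C : ℝ) * (z v : ℝ) ^ 2 ∧ (C : ℝ) * (z v : ℝ) ^ 2 ≤ X ^ (m + δ))
    (hK : ∀ v ∈ F, (y v).Coprime A ∧ (z v).Coprime A ∧ (x v).Coprime B ∧ (z v).Coprime B ∧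
      (x v).Coprime C ∧ (y v).Coprime C) :
    (F.card : ℝ) ≤ ((4 : ℝ) ^ A.primeFactors.card * 4 ^ B.primeFactors.card *
      4 ^ C.primeFactors.card) * (10 * X ^ (δ + max 0 (px + py + pz - m))) := by
  classical
  have hX0 : (0 : ℝ) < X := by linarith
  rcases F.eq_empty_or_nonempty with h0 | ⟨v0, hv0⟩
  · rw [h0]; simp; positivity
  have hC' : (0 : ℝ) < C := by exact_mod_cast hC
  have hB' : (0 : ℝ) < B := by exact_mod_cast hB
  set S : Finset (ℕ × ℕ × ℕ) := F.image (fun v => (x v, y v, z v)) with hS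
  have hcard : S.card = F.card := by
    refine Finset.card_image_of_injOn fun v hv w hw hvw => ?_
    simp only [Prod.mk.injEq] at hvw
    exact inj v hv w hw hvw.1 hvw.2.1
  set Z0 : ℝ := Real.sqrt (X ^ m / C) with hZ0
  set Z1 : ℝ := Real.sqrt (X ^ (m + δ) / C) with hZ1
  have z0 : 0 < Z0 := Real.sqrt_pos.2 (by positivity)
  have z1 : 0 < Z1 := Real.sqrt_pos.2 (by positivity)
  have key := fixed hR A B C hA hB hC hAB hAC hBC S (X ^ px) Z0 Z1 (by positivity) z0 z1 (by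
      intro s hs
      obtain ⟨v, hv, rfl⟩ := Finset.mem_image.mp hs
      obtain ⟨h1, h2, h3, h4, h5, h6, h7, -, -, h10, h11⟩ := h v hv
      refine ⟨h1, h2, h3, h4, h5, h6, h7, ?_, ?_⟩
      · show Z0 ≤ (z v : ℝ)
        rw [hZ0, Real.sqrt_le_left (Nat.cast_nonneg _), div_le_iff₀ hC']
        linarith
      · show (z v : ℝ) ≤ Z1
        refine Real.le_sqrt_of_sq_le ?_
        rw [le_div_iff₀ hC']
        linarith) (by
      intro s hs
      obtain ⟨v, hv, rfl⟩ := Finset.mem_image.mp hs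
      exact hK v hv)
  rw [hcard] at key
  refine key.trans (mul_le_mul_of_nonneg_left ?_ (by positivity))
  -- the number of points of one class
  obtain ⟨h1, h2, h3, h4, h5, h6, h7, h8, h9, h10, h11⟩ := h v0 hv0
  have hb1 : X ^ m / 2 ≤ (B : ℝ) * (y v0 : ℝ) ^ 2 := by
    have e1 : (A : ℝ) * (x v0 : ℝ) ^ 2 + B * (y v0 : ℝ) ^ 2 = C * (z v0 : ℝ) ^ 2 := by
      exact_mod_cast h5
    have e2 : (A : ℝ) * (x v0 : ℝ) ^ 2 ≤ B * (y v0 : ℝ) ^ 2 := by exact_mod_cast h6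
    linarith
  have hbc : X ^ (2 * m) / 2 ≤ (B * C : ℝ) * (X ^ (2 * (py + pz))) := by
    have e1 : X ^ (2 * m) / 2 ≤ ((B : ℝ) * (y v0 : ℝ) ^ 2) * ((C : ℝ) * (z v0 : ℝ) ^ 2) := by
      have e3 : X ^ (2 * m) / 2 = (X ^ m / 2) * X ^ m := by
        rw [two_mul, Real.rpow_add hX0]; ring
      rw [e3]
      exact mul_le_mul hb1 h10 (by positivity) (by positivity)
    have e4 : ((y v0 : ℝ) ^ 2) * ((z v0 : ℝ) ^ 2) ≤ X ^ (2 * (py + pz)) := by
      have e5 : X ^ (2 * (py + pz)) = (X ^ py) ^ 2 * (X ^ pz) ^ 2 := by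
        rw [← Real.rpow_natCast, ← Real.rpow_natCast, ← Real.rpow_mul hX0.le,
          ← Real.rpow_mul hX0.le, ← Real.rpow_add hX0]
        congr 1
        push_cast
        ring
      rw [e5]
      exact mul_le_mul (pow_le_pow_left₀ (Nat.cast_nonneg _) h8 2)
        (pow_le_pow_left₀ (Nat.cast_nonneg _) h9 2) (by positivity) (by positivity)
    calc X ^ (2 * m) / 2 ≤ _ := e1
      _ = (B * C : ℝ) * (((y v0 : ℝ) ^ 2) * ((z v0 : ℝ) ^ 2)) := by ring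
      _ ≤ _ := mul_le_mul_of_nonneg_left e4 (by positivity)
  have hsq : X ^ (m - (py + pz)) ≤ 2 * Real.sqrt (B * C) := by
    have e1 : X ^ (2 * (m - (py + pz))) / 2 ≤ (B * C : ℝ) := by
      have e2 : X ^ (2 * (m - (py + pz))) = X ^ (2 * m) / X ^ (2 * (py + pz)) := by
        rw [← Real.rpow_sub hX0]; congr 1; ring
      rw [e2, div_div, mul_comm (X ^ (2 * (py + pz))) 2, ← div_div, div_le_iff₀ (by positivity)]
      exact hbc
    have e3 : X ^ (m - (py + pz)) ≤ Real.sqrt (4 * (B * C)) := by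
      refine Real.le_sqrt_of_sq_le ?_
      have e4 : (X ^ (m - (py + pz))) ^ 2 = X ^ (2 * (m - (py + pz))) := by
        rw [← Real.rpow_natCast, ← Real.rpow_mul hX0.le]; congr 1; push_cast; ring
      rw [e4]
      have : (0 : ℝ) ≤ B * C := by positivity
      linarith
    refine e3.trans (le_of_eq ?_)
    rw [Real.sqrt_mul (by norm_num), show (4 : ℝ) = 2 ^ 2 by norm_num, Real.sqrt_sq (by norm_num)]
  have hq : 0 < Real.sqrt (B * C : ℝ) := Real.sqrt_pos.2 (by positivity)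
  have hZ : Z1 / Z0 = X ^ (δ / 2) := by
    rw [hZ1, hZ0, ← Real.sqrt_div (by positivity)]
    have e1 : X ^ (m + δ) / C / (X ^ m / C) = X ^ δ := by
      rw [Real.rpow_add hX0]
      field_simp
    rw [e1, Real.sqrt_eq_rpow, ← Real.rpow_mul hX0.le]
    congr 1
    ring
  have hmain : 2 * X ^ px * Z1 / (Z0 * Real.sqrt (B * C)) ≤
      4 * X ^ (δ / 2 + (px + py + pz - m)) := by
    have e1 : 2 * X ^ px * Z1 / (Z0 * Real.sqrt (B * C)) =
        2 * X ^ px * (Z1 / Z0) / Real.sqrt (B * C) := by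
      field_simp
    rw [e1, hZ, div_le_iff₀ hq]
    have e2 : X ^ px * X ^ (δ / 2) = X ^ (δ / 2 + (px + py + pz - m)) * X ^ (m - (py + pz)) := by
      rw [← Real.rpow_add hX0, ← Real.rpow_add hX0]; congr 1; ring
    have e3 : 2 * X ^ px * X ^ (δ / 2) = 2 * (X ^ (δ / 2 + (px + py + pz - m)) *
      X ^ (m - (py + pz))) := by rw [← e2]; ring
    rw [e3]
    have e4 := mul_le_mul_of_nonneg_left hsq
      (by positivity : (0 : ℝ) ≤ 2 * X ^ (δ / 2 + (px + py + pz - m)))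
    nlinarith [e4]
  have hE1 : X ^ (δ / 2 + (px + py + pz - m)) ≤ X ^ (δ + max 0 (px + py + pz - m)) := by
    refine Real.rpow_le_rpow_of_exponent_le hX ?_
    have := le_max_right 0 (px + py + pz - m)
    linarith
  have hE2 : 1 ≤ X ^ (δ + max 0 (px + py + pz - m)) := by
    refine Real.one_le_rpow hX ?_
    have := le_max_left 0 (px + py + pz - m)
    linarith
  linarith

theorem hh_bounds {v : ℕ × ℕ} {X m δ : ℝ} (hX : 1 ≤ X) (T : IsTri v)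
    (h1 : m * Real.log X ≤ hh v) (h2 : hh v ≤ (m + δ) * Real.log X) :
    X ^ m ≤ ((v.1 + v.2 : ℕ) : ℝ) ∧ ((v.1 + v.2 : ℕ) : ℝ) ≤ X ^ (m + δ) := by
  have hX0 : (0 : ℝ) < X := by linarith
  have hp : (0 : ℝ) < ((v.1 + v.2 : ℕ) : ℝ) := by
    have := T.1
    exact_mod_cast Nat.add_pos_left this _
  constructor
  · rw [← Real.exp_log hp, Real.rpow_def_of_pos hX0, mul_comm]
    exact Real.exp_le_exp.2 h1
  · rw [← Real.exp_log hp, Real.rpow_def_of_pos hX0, mul_comm]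
    exact Real.exp_le_exp.2 h2

/-- all triples with given cofactors -/
theorem fixed3 (hR : Pool.MED.S_RTS) (A B C : ℕ) (hA : 0 < A) (hB : 0 < B) (hC : 0 < C)
    (F : Finset (ℕ × ℕ)) (x y z : ℕ × ℕ → ℕ) (X m δ px py pz : ℝ) (hX : 1 ≤ X) (hδ : 0 ≤ δ)
    (h : ∀ v ∈ F, IsTri v ∧ 0 < x v ∧ 0 < y v ∧ 0 < z v ∧
      A * x v ^ 2 = v.1 ∧ B * y v ^ 2 = v.2 ∧ C * z v ^ 2 = v.1 + v.2 ∧
      (x v : ℝ) ≤ X ^ px ∧ (y v : ℝ) ≤ X ^ py ∧ (z v : ℝ) ≤ X ^ pz ∧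
      m * Real.log X ≤ hh v ∧ hh v ≤ (m + δ) * Real.log X) :
    (F.card : ℝ) ≤ ((4 : ℝ) ^ A.primeFactors.card * 4 ^ B.primeFactors.card *
      4 ^ C.primeFactors.card) * (20 * X ^ (δ + max 0 (px + py + pz - m))) := by
  classical
  rcases F.eq_empty_or_nonempty with h0 | ⟨v0, hv0⟩
  · have hX0 : (0 : ℝ) < X := by linarith
    rw [h0]; simp; positivity
  -- coprimality
  have hd : ∀ v ∈ F, A ∣ v.1 ∧ x v ∣ v.1 ∧ B ∣ v.2 ∧ y v ∣ v.2 ∧ C ∣ v.1 + v.2 ∧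
      z v ∣ v.1 + v.2 := by
    intro v hv
    obtain ⟨-, -, -, -, e1, e2, e3, -⟩ := h v hv
    refine ⟨⟨_, e1.symm⟩, ⟨A * x v, ?_⟩, ⟨_, e2.symm⟩, ⟨B * y v, ?_⟩, ⟨_, e3.symm⟩,
      ⟨C * z v, ?_⟩⟩
    · rw [← e1]; ring
    · rw [← e2]; ring
    · rw [← e3]; ring
  have hco : ∀ v ∈ F, v.1.Coprime v.2 ∧ v.1.Coprime (v.1 + v.2) ∧ v.2.Coprime (v.1 + v.2) := by
    intro v hv
    have hc := (h v hv).1.2.2
    exact ⟨hc, by simpa using hc, by simpa using hc.symm⟩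
  have hcop : ∀ {a b c d : ℕ}, a.Coprime b → c ∣ a → d ∣ b → c.Coprime d :=
    fun h1 h2 h3 => Nat.Coprime.coprime_dvd_left h2 (Nat.Coprime.coprime_dvd_right h3 h1)
  have hAB : A.Coprime B := hcop (hco v0 hv0).1 (hd v0 hv0).1 (hd v0 hv0).2.2.1
  have hAC : A.Coprime C := hcop (hco v0 hv0).2.1 (hd v0 hv0).1 (hd v0 hv0).2.2.2.2.1
  have hBC : B.Coprime C := hcop (hco v0 hv0).2.2 (hd v0 hv0).2.2.1 (hd v0 hv0).2.2.2.2.1
  have hinj : ∀ v ∈ F, ∀ w ∈ F, x v = x w → y v = y w → v = w := by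
    intro v hv w hw e1 e2
    have a1 := (h v hv).2.2.2.2.1
    have a2 := (h w hw).2.2.2.2.1
    have b1 := (h v hv).2.2.2.2.2.1
    have b2 := (h w hw).2.2.2.2.2.1
    rw [e1, a2] at a1
    rw [e2, b2] at b1
    exact Prod.ext a1.symm b1.symm
  have key1 := fixed2 hR A B C hA hB hC hAB hAC hBC (F.filter (fun v => v.1 ≤ v.2)) x y z X m δ
    px py pz hX hδ (fun v hv w hw => hinj v (mem_filter.1 hv).1 w (mem_filter.1 hw).1) (by
      intro v hv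
      rw [mem_filter] at hv
      obtain ⟨T, x0, y0, z0, e1, e2, e3, bx, by', bz, l1, l2⟩ := h v hv.1
      obtain ⟨u1, u2⟩ := hh_bounds hX T l1 l2
      have e3' : (C : ℝ) * (z v : ℝ) ^ 2 = ((v.1 + v.2 : ℕ) : ℝ) := by exact_mod_cast e3
      refine ⟨x0, y0, z0, hcop (hco v hv.1).1 (hd v hv.1).2.1 (hd v hv.1).2.2.2.1, ?_, ?_, bx,
        by', bz, ?_, ?_⟩
      · rw [e1, e2, e3]
      · rw [e1, e2]; exact hv.2
      · rw [e3']; exact u1
      · rw [e3']; exact u2) (by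
      intro v hv
      have hv' := (mem_filter.1 hv).1
      obtain ⟨c1, c2, c3⟩ := hco v hv'
      obtain ⟨d1, d2, d3, d4, d5, d6⟩ := hd v hv'
      exact ⟨(hcop c1 d1 d4).symm, (hcop c2 d1 d6).symm, hcop c1 d2 d3, (hcop c3 d3 d6).symm,
        hcop c2 d2 d5, hcop c3 d4 d5⟩)
  have key2 := fixed2 hR B A C hB hA hC hAB.symm hBC hAC (F.filter (fun v => ¬ v.1 ≤ v.2)) y x z
    X m δ py px pz hX hδ (fun v hv w hw e1 e2 =>
      hinj v (mem_filter.1 hv).1 w (mem_filter.1 hw).1 e2 e1) (by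
      intro v hv
      rw [mem_filter] at hv
      obtain ⟨T, x0, y0, z0, e1, e2, e3, bx, by', bz, l1, l2⟩ := h v hv.1
      obtain ⟨u1, u2⟩ := hh_bounds hX T l1 l2
      have e3' : (C : ℝ) * (z v : ℝ) ^ 2 = ((v.1 + v.2 : ℕ) : ℝ) := by exact_mod_cast e3
      refine ⟨y0, x0, z0, (hcop (hco v hv.1).1 (hd v hv.1).2.1 (hd v hv.1).2.2.2.1).symm, ?_, ?_,
        by', bx, bz, ?_, ?_⟩
      · rw [e1, e2, e3, Nat.add_comm]
      · rw [e1, e2]; omega
      · rw [e3']; exact u1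
      · rw [e3']; exact u2) (by
      intro v hv
      have hv' := (mem_filter.1 hv).1
      obtain ⟨c1, c2, c3⟩ := hco v hv'
      obtain ⟨d1, d2, d3, d4, d5, d6⟩ := hd v hv'
      exact ⟨hcop c1 d2 d3, (hcop c3 d3 d6).symm, (hcop c1 d1 d4).symm, (hcop c2 d1 d6).symm,
        hcop c3 d4 d5, hcop c2 d2 d5⟩)
  have hsplit : (F.card : ℝ) = ((F.filter (fun v => v.1 ≤ v.2)).card : ℝ) +
      ((F.filter (fun v => ¬ v.1 ≤ v.2)).card : ℝ) := by
    exact_mod_cast (Finset.card_filter_add_card_filter_not (s := F) (fun v : ℕ × ℕ => v.1 ≤ v.2)).symm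
  rw [show py + px + pz = px + py + pz by ring] at key2
  rw [hsplit]
  refine (add_le_add key1 key2).trans (le_of_eq ?_)
  ring

theorem con_thm (hR : Pool.MED.S_RTS) (h2 : S_LAY) (h3 : Pool.RIC.S_CNT)
    (h4 : Pool.FEX.S_OMB) : S_CON := by
  classical
  intro J κ ε hJ hκ hε
  obtain ⟨C1, hC1, hT⟩ := h3 κ (ε / 6) (by linarith) (by linarith)
  obtain ⟨C2, hC2, hO⟩ := h4 4 (ε / (6 * κ)) (by norm_num) (by positivity)
  refine ⟨C1 ^ 3 * (C2 ^ 3 * 20), one_le_mul_of_one_le_of_one_le (one_le_pow₀ hC1)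
    (one_le_mul_of_one_le_of_one_le (one_le_pow₀ hC2) (by norm_num)), ?_⟩
  intro X τ m δ F p hX hτ hδ hp hF
  have hX0 : (0 : ℝ) < X := by linarith
  have hJ2 : 2 ∈ Icc 1 J := mem_Icc.2 ⟨by norm_num, hJ⟩
  have hK : (Icc 1 J).erase 2 ⊆ Icc 1 J := erase_subset _ _
  set c : Fin 3 → ℕ × ℕ → ℕ := fun l v => kp J ((Icc 1 J).erase 2) (coord v l) with hc
  set T : Fin 3 → Finset ℕ := fun l => F.image (c l) with hTdef
  have hkp : ∀ l, ∀ v ∈ F, c l v ∣ coord v l ∧ 0 < c l v ∧ (c l v : ℝ) ≤ X ^ κ ∧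
      (rad (c l v) : ℝ) ≤ X ^ (τ + ∑ e ∈ (Icc 1 J).erase 2, p l e) := by
    intro l v hv
    obtain ⟨T1, H, P, -⟩ := hF v hv
    have hpos := coord_pos T1 l
    obtain ⟨-, -, -, hd, -⟩ := h2 J (coord v l) hpos
    obtain ⟨hd1, hd2⟩ := hd _ hK
    have hle : c l v ≤ coord v l := Nat.le_of_dvd hpos hd1
    refine ⟨hd1, Nat.pos_of_dvd_of_pos hd1 hpos, ?_, ?_⟩
    · exact le_trans (by exact_mod_cast hle) (CTL71.size hX T1 H l)
    · rw [hc]
      simp only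
      rw [hd2, Nat.cast_mul, Nat.cast_prod, Real.rpow_add hX0, Real.rpow_sum_of_pos hX0]
      refine mul_le_mul (P l).1 ?_ (Finset.prod_nonneg fun e _ => Nat.cast_nonneg _) (by positivity)
      exact Finset.prod_le_prod (fun e _ => Nat.cast_nonneg _) fun e he => (P l).2 e (hK he)
  have hTc : ∀ l, ((T l).card : ℝ) ≤
      C1 * X ^ (ε / 6) * X ^ (τ + ∑ e ∈ (Icc 1 J).erase 2, p l e) := by
    intro l
    refine hT X _ (T l) hX (Real.one_le_rpow hX ?_) ?_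
    · exact add_nonneg hτ (Finset.sum_nonneg fun e _ => (hp l e).1)
    intro n hn
    obtain ⟨v, hv, rfl⟩ := Finset.mem_image.mp hn
    exact ⟨(hkp l v hv).2.1, (hkp l v hv).2.2.1, (hkp l v hv).2.2.2⟩
  set U : Finset (ℕ × ℕ × ℕ) := T 0 ×ˢ (T 1 ×ˢ T 2) with hU
  set key : ℕ × ℕ → ℕ × ℕ × ℕ := fun v => (c 0 v, c 1 v, c 2 v) with hkey
  have hmaps : Set.MapsTo key (F : Set (ℕ × ℕ)) U := by
    intro v hv
    have hv' := Finset.mem_coe.1 hv
    refine Finset.mem_coe.2 ?_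
    rw [hU, mem_product, mem_product]
    exact ⟨mem_image_of_mem _ hv', mem_image_of_mem _ hv', mem_image_of_mem _ hv'⟩
  set M : ℝ := max 0 (p 0 2 + p 1 2 + p 2 2 - m) with hM
  set b : ℝ := C2 ^ 3 * X ^ (ε / 2) * (20 * X ^ (δ + M)) with hb
  have hb0 : 0 ≤ b := by rw [hb]; positivity
  have hom : ∀ l, ∀ v ∈ F, (4 : ℝ) ^ (c l v).primeFactors.card ≤ C2 * X ^ (ε / 6) := by
    intro l v hv
    obtain ⟨-, k2, k3, -⟩ := hkp l v hv
    have h5 := hO (c l v) k2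
    have h6 : (4 : ℝ) ^ (c l v).primeFactors.card ≤ (4 : ℝ) ^ (om (c l v) + 1) :=
      pow_le_pow_right₀ (by norm_num) (Nat.le_succ _)
    refine (h6.trans h5).trans (mul_le_mul_of_nonneg_left ?_ (by linarith))
    calc ((c l v : ℕ) : ℝ) ^ (ε / (6 * κ)) ≤ (X ^ κ) ^ (ε / (6 * κ)) :=
          Real.rpow_le_rpow (Nat.cast_nonneg _) k3 (by positivity)
      _ = X ^ (ε / 6) := by
          rw [← Real.rpow_mul hX0.le]
          congr 1
          field_simp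
  have hfib : ∀ q ∈ U, (((F.filter (fun v => key v = q)).card : ℕ) : ℝ) ≤ b := by
    intro q _
    rcases (F.filter (fun v => key v = q)).eq_empty_or_nonempty with h0 | ⟨v0, hv0⟩
    · rw [h0]; simpa using hb0
    have hv0' := (mem_filter.1 hv0)
    obtain ⟨A, B, C⟩ := q
    have hq : ∀ v ∈ F.filter (fun v => key v = (A, B, C)), c 0 v = A ∧ c 1 v = B ∧ c 2 v = C := by
      intro v hv
      have := (mem_filter.1 hv).2
      simpa [hkey] using this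
    obtain ⟨qA, qB, qC⟩ := hq v0 hv0
    have k := fixed3 hR A B C (by rw [← qA]; exact (hkp 0 v0 hv0'.1).2.1)
      (by rw [← qB]; exact (hkp 1 v0 hv0'.1).2.1) (by rw [← qC]; exact (hkp 2 v0 hv0'.1).2.1)
      (F.filter (fun v => key v = (A, B, C))) (fun v => lay (coord v 0) 2)
      (fun v => lay (coord v 1) 2) (fun v => lay (coord v 2) 2) X m δ (p 0 2) (p 1 2) (p 2 2) hX hδ
      (by
        intro v hv
        obtain ⟨r1, r2, r3⟩ := hq v hv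
        obtain ⟨T1, H, P, l1, l2⟩ := hF v (mem_filter.1 hv).1
        have L : ∀ l : Fin 3, 0 < lay (coord v l) 2 ∧ c l v * lay (coord v l) 2 ^ 2 = coord v l := by
          intro l
          obtain ⟨-, -, -, -, h5⟩ := h2 J (coord v l) (coord_pos T1 l)
          obtain ⟨h6, -, -, h7⟩ := h5 2
          exact ⟨h6, h7 hJ2⟩
        refine ⟨T1, (L 0).1, (L 1).1, (L 2).1, ?_, ?_, ?_, (P 0).2 2 hJ2, (P 1).2 2 hJ2,
          (P 2).2 2 hJ2, l1, l2⟩
        · rw [← r1]; exact (L 0).2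
        · rw [← r2]; exact (L 1).2
        · rw [← r3]; exact (L 2).2)
    refine k.trans ?_
    rw [hb]
    refine mul_le_mul_of_nonneg_right ?_ (by positivity)
    rw [← qA, ← qB, ← qC]
    have g0 := hom 0 v0 hv0'.1
    have g1 := hom 1 v0 hv0'.1
    have g2 := hom 2 v0 hv0'.1
    calc (4 : ℝ) ^ (c 0 v0).primeFactors.card * 4 ^ (c 1 v0).primeFactors.card *
        4 ^ (c 2 v0).primeFactors.card ≤
        (C2 * X ^ (ε / 6)) * (C2 * X ^ (ε / 6)) * (C2 * X ^ (ε / 6)) := by gcongr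
      _ = C2 ^ 3 * (X ^ (ε / 6) * X ^ (ε / 6) * X ^ (ε / 6)) := by ring
      _ = C2 ^ 3 * X ^ (ε / 2) := by
          rw [← Real.rpow_add hX0, ← Real.rpow_add hX0]
          congr 2
          ring
  have hsum : (F.card : ℝ) ≤ U.card * b := by
    rw [Finset.card_eq_sum_card_fiberwise hmaps]
    push_cast
    calc ∑ q ∈ U, ((F.filter (fun v => key v = q)).card : ℝ) ≤ ∑ _q ∈ U, b :=
          Finset.sum_le_sum hfib
      _ = _ := by rw [Finset.sum_const, nsmul_eq_mul]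
  have hUc : (U.card : ℝ) ≤ C1 ^ 3 * X ^ (ε / 2 + 3 * τ +
      (∑ e ∈ (Icc 1 J).erase 2, p 0 e) + (∑ e ∈ (Icc 1 J).erase 2, p 1 e) +
      (∑ e ∈ (Icc 1 J).erase 2, p 2 e)) := by
    rw [hU, card_product, card_product]
    push_cast
    have g0 := hTc 0
    have g1 := hTc 1
    have g2 := hTc 2
    calc ((T 0).card : ℝ) * ((T 1).card * (T 2).card) ≤
        (C1 * X ^ (ε / 6) * X ^ (τ + ∑ e ∈ (Icc 1 J).erase 2, p 0 e)) *
        ((C1 * X ^ (ε / 6) * X ^ (τ + ∑ e ∈ (Icc 1 J).erase 2, p 1 e)) *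
        (C1 * X ^ (ε / 6) * X ^ (τ + ∑ e ∈ (Icc 1 J).erase 2, p 2 e))) := by gcongr
      _ = C1 ^ 3 * ((X ^ (ε / 6) * X ^ (τ + ∑ e ∈ (Icc 1 J).erase 2, p 0 e)) *
        ((X ^ (ε / 6) * X ^ (τ + ∑ e ∈ (Icc 1 J).erase 2, p 1 e)) *
        (X ^ (ε / 6) * X ^ (τ + ∑ e ∈ (Icc 1 J).erase 2, p 2 e)))) := by ring
      _ = _ := by
          simp only [← Real.rpow_add hX0]
          congr 2
          ring
  have her : ∀ l : Fin 3, ∑ n ∈ Icc 1 J, p l n - p l 2 = ∑ e ∈ (Icc 1 J).erase 2, p l e := by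
    intro l
    rw [← Finset.add_sum_erase _ _ hJ2]
    ring
  refine hsum.trans ((mul_le_mul_of_nonneg_right hUc hb0).trans ?_)
  rw [her 0, her 1, her 2, hb]
  have e1 : ∀ u w t : ℝ, C1 ^ 3 * X ^ u * (C2 ^ 3 * X ^ w * (20 * X ^ t)) =
      C1 ^ 3 * (C2 ^ 3 * 20) * X ^ (u + w + t) := by
    intro u w t
    rw [Real.rpow_add hX0, Real.rpow_add hX0]
    ring
  rw [e1]
  refine mul_le_mul_of_nonneg_left (Real.rpow_le_rpow_of_exponent_le hX ?_) (by positivity)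
  linarith

end Pool.CON
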